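import Pool.Agent.TH237.RT.Int
import Pool.Agent.H828R3.Exc.Law

set_option autoImplicit false

/-! The number of the exceptions `l(n) > n` up to `X`, with an error term. -/

open Filter Topology

namespace Pool.Agent.Results.MP_e43fce_nt.ExceptionCount

/-- the Collatz function -/
def C (n : ℕ) : ℕ := if n % 2 = 0 then n / 2 else 3 * n + 1

/-- `l(n) ≤ t`: one of the iterates `C^(k)(n)` with `k ≤ t` is `1` -/
def StopsBy (t : ℝ) (n : ℕ) : Prop := ∃ k : ℕ, (k : ℝ) ≤ t ∧ C^[k] n = 1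

/-- `l(n) < ∞` -/
def Stops (n : ℕ) : Prop := ∃ k : ℕ, C^[k] n = 1

/-- the number of the integers `1 ≤ n ≤ X` with the property `P` -/
noncomputable def count (P : ℕ → Prop) (X : ℝ) : ℝ :=
  ({n : ℕ | 1 ≤ n ∧ (n : ℝ) ≤ X ∧ P n}.ncard : ℝ)

lemma fin_cnt (P : ℕ → Prop) (X : ℝ) : {n : ℕ | 1 ≤ n ∧ (n : ℝ) ≤ X ∧ P n}.Finite := by
  apply (Set.finite_Icc 1 ⌊X⌋₊).subset
  rintro n ⟨h1, h2, -⟩
  exact ⟨h1, Nat.le_floor h2⟩

lemma cnt_mono {P Q : ℕ → Prop} {X : ℝ} (h : ∀ n : ℕ, 1 ≤ n → (n : ℝ) ≤ X → P n → Q n) :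
    count P X ≤ count Q X := by
  unfold count
  have : {n : ℕ | 1 ≤ n ∧ (n : ℝ) ≤ X ∧ P n} ⊆ {n : ℕ | 1 ≤ n ∧ (n : ℝ) ≤ X ∧ Q n} :=
    fun n hn => ⟨hn.1, hn.2.1, h n hn.1 hn.2.1 hn.2.2⟩
  exact_mod_cast Set.ncard_le_ncard this (fin_cnt Q X)

lemma cnt_or {P Q R : ℕ → Prop} {X : ℝ} (h : ∀ n : ℕ, 1 ≤ n → (n : ℝ) ≤ X → P n → Q n ∨ R n) :
    count P X ≤ count Q X + count R X := by
  unfold count
  have : {n : ℕ | 1 ≤ n ∧ (n : ℝ) ≤ X ∧ P n} ⊆
      {n : ℕ | 1 ≤ n ∧ (n : ℝ) ≤ X ∧ Q n} ∪ {n : ℕ | 1 ≤ n ∧ (n : ℝ) ≤ X ∧ R n} := by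
    rintro n ⟨h1, h2, h3⟩
    rcases h n h1 h2 h3 with h4 | h4
    · exact Or.inl ⟨h1, h2, h4⟩
    · exact Or.inr ⟨h1, h2, h4⟩
  have h2 := (Set.ncard_le_ncard this ((fin_cnt Q X).union (fin_cnt R X))).trans
    (Set.ncard_union_le _ _)
  exact_mod_cast h2

lemma cnt_le (P : ℕ → Prop) {X : ℝ} (hX : 0 ≤ X) : count P X ≤ X := by
  have h1 : {n : ℕ | 1 ≤ n ∧ (n : ℝ) ≤ X ∧ P n} ⊆ ((Finset.Icc 1 ⌊X⌋₊ : Finset ℕ) : Set ℕ) := by
    rintro n ⟨h1, h2, -⟩
    rw [Finset.coe_Icc]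
    exact ⟨h1, Nat.le_floor h2⟩
  have h2 := Set.ncard_le_ncard h1 (Finset.finite_toSet _)
  rw [Set.ncard_coe_finset, Nat.card_Icc, Nat.add_sub_cancel] at h2
  have h3 : count P X ≤ (⌊X⌋₊ : ℝ) := by unfold count; exact_mod_cast h2
  exact h3.trans (Nat.floor_le hX)

lemma C_pos {n : ℕ} (h : 1 ≤ n) : 1 ≤ C n := by
  unfold C
  split_ifs <;> omega

/-- sets of positive integers completely invariant under `C` -/
lemma set_rate {A : ℝ} (h : ∀ S : Set ℤ, (∀ x : ℤ, 0 < 1 * x → (x ∈ S ↔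
      Pool.Agent.H499R2.ND.Td 1 x ∈ S)) →
    ∃ δ : ℝ, 0 ≤ δ ∧ δ ≤ 1 ∧ (δ = 0 ↔ ∀ n : ℤ, 0 < 1 * n → n ∉ S) ∧
      (δ = 1 ↔ ∀ n : ℤ, 0 < 1 * n → n ∈ S) ∧
      ∀ X : ℝ, 2 ≤ X → |Pool.Agent.TH237.RT.ci 1 S X - δ * X| ≤ A * X / (Real.log X) ^ (1 / 30 : ℝ))
    (S : Set ℕ) (hS : ∀ n : ℕ, 1 ≤ n → (n ∈ S ↔ C n ∈ S)) :
    ∃ δ : ℝ, 0 ≤ δ ∧ δ ≤ 1 ∧ (δ = 0 ↔ ∀ n : ℕ, 1 ≤ n → n ∉ S) ∧ (δ = 1 ↔ ∀ n : ℕ, 1 ≤ n → n ∈ S) ∧
      ∀ X : ℝ, 2 ≤ X → |count (fun n => n ∈ S) X - δ * X| ≤ A * X / (Real.log X) ^ (1 / 30 : ℝ) := by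
  set S' : Set ℤ := {x | x.toNat ∈ S} with hS'
  have hmem : ∀ n : ℕ, (n : ℤ) ∈ S' ↔ n ∈ S := by
    intro n
    show ((n : ℤ)).toNat ∈ S ↔ n ∈ S
    rw [Int.toNat_natCast]
  obtain ⟨δ, h0, h1, h2, h3, h4⟩ := h S' (by
    intro x hx
    obtain ⟨n, rfl⟩ : ∃ n : ℕ, x = n := ⟨x.toNat, by omega⟩
    have hn : 1 ≤ n := by omega
    rw [hmem]
    by_cases hp : n % 2 = 0
    · have e1 : Pool.Agent.H499R2.ND.Td 1 (n : ℤ) = ((n / 2 : ℕ) : ℤ) := by
        unfold Pool.Agent.H499R2.ND.Td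
        rw [if_pos (by omega)]
        omega
      have e2 : C n = n / 2 := by unfold C; rw [if_pos hp]
      rw [e1, hmem, hS n hn, e2]
    · have e1 : Pool.Agent.H499R2.ND.Td 1 (n : ℤ) = (((3 * n + 1) / 2 : ℕ) : ℤ) := by
        unfold Pool.Agent.H499R2.ND.Td
        rw [if_neg (by omega)]
        omega
      have e2 : C n = 3 * n + 1 := by unfold C; rw [if_neg hp]
      have e3 : C (3 * n + 1) = (3 * n + 1) / 2 := by unfold C; rw [if_pos (by omega)]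
      rw [e1, hmem, hS n hn, e2, hS (3 * n + 1) (by omega), e3])
  have hci : ∀ X : ℝ, Pool.Agent.TH237.RT.ci 1 S' X = count (fun n => n ∈ S) X := by
    intro X
    unfold Pool.Agent.TH237.RT.ci count
    have e : {n : ℤ | 0 < 1 * n ∧ ((1 * n : ℤ) : ℝ) ≤ X ∧ n ∈ S'} =
        (fun n : ℕ => (n : ℤ)) '' {n : ℕ | 1 ≤ n ∧ (n : ℝ) ≤ X ∧ n ∈ S} := by
      ext x
      constructor
      · rintro ⟨a1, a2, a3⟩
        obtain ⟨n, rfl⟩ : ∃ n : ℕ, x = n := ⟨x.toNat, by omega⟩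
        refine ⟨n, ⟨by omega, ?_, (hmem n).1 a3⟩, rfl⟩
        rw [one_mul] at a2
        exact_mod_cast a2
      · rintro ⟨n, ⟨a1, a2, a3⟩, rfl⟩
        refine ⟨by show (0 : ℤ) < 1 * (n : ℤ); omega, ?_, (hmem n).2 a3⟩
        show ((1 * (n : ℤ) : ℤ) : ℝ) ≤ X
        rw [one_mul]
        exact_mod_cast a2
    rw [e, Set.ncard_image_of_injective _ Nat.cast_injective]
  refine ⟨δ, h0, h1, ?_, ?_, fun X hX => ?_⟩
  · rw [h2]
    constructor
    · intro H n hn hnS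
      exact H n (by omega) ((hmem n).2 hnS)
    · intro H x hx hxS
      obtain ⟨n, rfl⟩ : ∃ n : ℕ, x = n := ⟨x.toNat, by omega⟩
      exact H n (by omega) ((hmem n).1 hxS)
  · rw [h3]
    constructor
    · intro H n hn
      exact (hmem n).1 (H n (by omega))
    · intro H x hx
      obtain ⟨n, rfl⟩ : ∃ n : ℕ, x = n := ⟨x.toNat, by omega⟩
      exact (hmem n).2 (H n (by omega))
  · rw [← hci]
    exact h4 X hX

/-- the iterates of `T` are iterates of `C`, at a time at most twice as large -/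
lemma iter_T (k : ℕ) : ∀ n : ℕ, ∃ o : ℕ, o ≤ 2 * k ∧
    Pool.Agent.Helper894.Collatz.T^[k] n = C^[o] n := by
  induction k with
  | zero => intro n; exact ⟨0, le_rfl, rfl⟩
  | succ k ih =>
    intro n
    by_cases h : n % 2 = 0
    · obtain ⟨o, ho, hoe⟩ := ih (n / 2)
      refine ⟨o + 1, by omega, ?_⟩
      rw [Function.iterate_succ_apply, Function.iterate_succ_apply]
      have e1 : Pool.Agent.Helper894.Collatz.T n = n / 2 := by
        unfold Pool.Agent.Helper894.Collatz.T; rw [if_pos h]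
      have e2 : C n = n / 2 := by unfold C; rw [if_pos h]
      rw [e1, e2, hoe]
    · obtain ⟨o, ho, hoe⟩ := ih ((3 * n + 1) / 2)
      refine ⟨o + 2, by omega, ?_⟩
      rw [Function.iterate_succ_apply, Function.iterate_succ_apply, Function.iterate_succ_apply]
      have e1 : Pool.Agent.Helper894.Collatz.T n = (3 * n + 1) / 2 := by
        unfold Pool.Agent.Helper894.Collatz.T; rw [if_neg h]
      have e2 : C n = 3 * n + 1 := by unfold C; rw [if_neg h]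
      have e3 : C (3 * n + 1) = (3 * n + 1) / 2 := by unfold C; rw [if_pos (by omega)]
      rw [e1, e2, e3, hoe]

/-- almost all `n ≤ X` reach a power of `log X` in logarithmic time -/
lemma fast : ∃ D K : ℝ, 1 ≤ D ∧ 1 ≤ K ∧ ∀ X : ℝ, 2 ≤ X →
    count (fun n => ¬ ∃ o : ℕ, (o : ℝ) ≤ D * Real.log X ∧ ((C^[o] n : ℕ) : ℝ) ≤ (Real.log X) ^ D) X ≤
      K * X / (Real.log X) ^ (1 / 30 : ℝ) := by
  obtain ⟨c, C₀, hc, hC₀, h⟩ := Pool.Agent.H828R3.Exc.law (one_pos)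
  have hμ : 0 < Pool.Agent.H319R2.Lln.mu := by
    have : Pool.Agent.H319R2.Lln.mu = Real.log (4 / 3) / 2 := rfl
    rw [this]
    have : 0 < Real.log (4 / 3) := Real.log_pos (by norm_num)
    linarith
  set μ := Pool.Agent.H319R2.Lln.mu with hμe
  set D : ℝ := 1 + 5 / c + 4 / μ with hD
  have hD1 : 1 ≤ D := by rw [hD]; have : 0 < 5 / c + 4 / μ := by positivity
                         linarith
  have hDc : 5 ≤ D * c := by
    have h1 : 5 / c * c = 5 := by field_simp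
    have h2 : D * c = c + 5 / c * c + 4 / μ * c := by rw [hD]; ring
    rw [h2, h1]
    have : 0 < 4 / μ * c := by positivity
    linarith
  have hDμ : 4 ≤ D * μ := by
    have h1 : 4 / μ * μ = 4 := by field_simp
    have h2 : D * μ = μ + 4 / μ * μ + 5 / c * μ := by rw [hD]; ring
    rw [h2, h1]
    have : 0 < 5 / c * μ := by positivity
    linarith
  refine ⟨D, 1 + 2 * 24 ^ 2 * C₀, hD1, by nlinarith, fun X hX => ?_⟩
  have hX0 : 0 < X := by linarith
  have hL : 0 < Real.log X := Real.log_pos (by linarith)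
  have hLr : 0 < (Real.log X) ^ (1 / 30 : ℝ) := Real.rpow_pos_of_pos hL _
  rcases le_or_gt (Real.log X) 1 with hs | hs
  · have h1 := cnt_le (fun n => ¬ ∃ o : ℕ, (o : ℝ) ≤ D * Real.log X ∧
      ((C^[o] n : ℕ) : ℝ) ≤ (Real.log X) ^ D) hX0.le
    refine h1.trans ?_
    rw [le_div_iff₀ hLr]
    have h2 := Real.rpow_le_one hL.le hs (by norm_num : (0 : ℝ) ≤ 1 / 30)
    have h3 : X * (Real.log X) ^ (1 / 30 : ℝ) ≤ X * 1 := mul_le_mul_of_nonneg_left h2 hX0.le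
    have h4 : 0 ≤ 2 * 24 ^ 2 * C₀ * X := by positivity
    linarith
  · set L := Real.log X with hLe
    have hy : 1 ≤ L ^ D := Real.one_le_rpow hs.le (by linarith)
    have h1 := h X (L ^ D) (X ^ 2) hX hy (by nlinarith)
    have h2 : count (fun n => ¬ ∃ o : ℕ, (o : ℝ) ≤ D * L ∧ ((C^[o] n : ℕ) : ℝ) ≤ L ^ D) X ≤
        ({n : ℕ | 1 ≤ n ∧ (n : ℝ) ≤ X ∧ ¬ Pool.Agent.H828R3.Exc.Pr 1 (L ^ D) (X ^ 2) n}.ncard : ℝ) := by
      apply cnt_mono (Q := fun n => ¬ Pool.Agent.H828R3.Exc.Pr 1 (L ^ D) (X ^ 2) n)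
      intro n hn hnX hno hP
      apply hno
      obtain ⟨m, hm1, hm2⟩ := hP
      obtain ⟨o, ho, hoe⟩ := iter_T m n
      refine ⟨o, ?_, ?_⟩
      · have h3 := (hm2 m le_rfl).1
        have h4 : 0 ≤ Real.log (Pool.Agent.Helper894.Collatz.T^[m] n : ℕ) := Real.log_natCast_nonneg _
        have h5 := (abs_le.1 h3).2
        have hlog : Real.log n ≤ L := Real.log_le_log (by exact_mod_cast hn) hnX
        have h6 : μ * m ≤ 2 * L := by linarith
        have h7 : (o : ℝ) ≤ 2 * m := by exact_mod_cast ho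
        have h8 : μ * o ≤ 4 * L := by nlinarith
        have h9 : 4 * L ≤ D * μ * L := mul_le_mul_of_nonneg_right hDμ hL.le
        have h10 : μ * o ≤ μ * (D * L) := by linarith
        exact le_of_mul_le_mul_left h10 hμ
      · rw [← hoe]; exact hm1
    refine (h2.trans h1).trans ?_
    have e1 : X ^ 2 / X ^ 2 = 1 := div_self (by positivity)
    rw [e1]
    have h3 : L ^ (5 : ℝ) ≤ (L ^ D) ^ c := by
      rw [← Real.rpow_mul hL.le]
      exact Real.rpow_le_rpow_of_exponent_le hs.le hDc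
    have e5 : L ^ (5 : ℝ) = L ^ 4 * L := by
      rw [show (5 : ℝ) = ((5 : ℕ) : ℝ) by norm_num, Real.rpow_natCast]; ring
    have h30 : L ^ (1 / 30 : ℝ) ≤ L := by
      calc L ^ (1 / 30 : ℝ) ≤ L ^ (1 : ℝ) := Real.rpow_le_rpow_of_exponent_le hs.le (by norm_num)
        _ = L := Real.rpow_one _
    have h4 : C₀ * L ^ 4 * (X / (L ^ D) ^ c) ≤ C₀ * X / L ^ (1 / 30 : ℝ) := by
      have hp : 0 < (L ^ D) ^ c := by positivity
      rw [mul_div_assoc', div_le_div_iff₀ hp hLr]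
      have h5 : L ^ 4 * L ^ (1 / 30 : ℝ) ≤ (L ^ D) ^ c := by
        refine le_trans ?_ h3
        rw [e5]
        exact mul_le_mul_of_nonneg_left h30 (by positivity)
      calc C₀ * L ^ 4 * X * L ^ (1 / 30 : ℝ) = C₀ * X * (L ^ 4 * L ^ (1 / 30 : ℝ)) := by ring
        _ ≤ C₀ * X * (L ^ D) ^ c := mul_le_mul_of_nonneg_left h5 (by positivity)
    have h6 : L ^ 4 * L ^ (1 / 30 : ℝ) ≤ 24 * 24 * X := by
      -- `L^5 ≤ 120 e^L`
      have h7 : L ^ 4 * L ^ (1 / 30 : ℝ) ≤ L ^ 5 := by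
        calc L ^ 4 * L ^ (1 / 30 : ℝ) ≤ L ^ 4 * L := mul_le_mul_of_nonneg_left h30 (by positivity)
          _ = L ^ 5 := by ring
      have h8 := Real.pow_div_factorial_le_exp L hL.le 5
      rw [hLe, Real.exp_log hX0, ← hLe] at h8
      rw [div_le_iff₀ (by positivity)] at h8
      have h9 : ((Nat.factorial 5 : ℕ) : ℝ) = 120 := by norm_num [Nat.factorial]
      rw [h9] at h8
      nlinarith
    have h7 : C₀ * L ^ 4 * 1 ≤ 24 * 24 * C₀ * X / L ^ (1 / 30 : ℝ) := by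
      rw [le_div_iff₀ hLr]
      calc C₀ * L ^ 4 * 1 * L ^ (1 / 30 : ℝ) = C₀ * (L ^ 4 * L ^ (1 / 30 : ℝ)) := by ring
        _ ≤ C₀ * (24 * 24 * X) := mul_le_mul_of_nonneg_left h6 hC₀.le
        _ = _ := by ring
    have e2 : C₀ * L ^ 4 * (X / (L ^ D) ^ c + 1) = C₀ * L ^ 4 * (X / (L ^ D) ^ c) + C₀ * L ^ 4 * 1 := by
      ring
    rw [e2]
    have e3 : (1 + 2 * 24 ^ 2 * C₀) * X / L ^ (1 / 30 : ℝ) =
        C₀ * X / L ^ (1 / 30 : ℝ) + 24 * 24 * C₀ * X / L ^ (1 / 30 : ℝ) +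
          (1 + (24 * 24 - 1) * C₀) * X / L ^ (1 / 30 : ℝ) := by ring
    rw [e3]
    have h8 : 0 ≤ (1 + (24 * 24 - 1) * C₀) * X / L ^ (1 / 30 : ℝ) := by
      apply div_nonneg _ hLr.le
      apply mul_nonneg _ hX0.le
      nlinarith
    linarith

/-- Let `l(n)` be the total stopping time of `n` and `E(X)` the number of the positive integers
`n ≤ X` with `l(n) > n` (`l(n) = ∞` allowed). There are `A > 0` and `0 ≤ δ < 1` such that `δ` is `0` if
and only if every positive integer reaches `1`, and such that for all real `X ≥ 2`: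
(1) `E(X) ≥ δ X - A X / (log X)^(1/30)`;
(2) `E(X) = δ X` with an error of at most `A X / (log X)^(1/30)` if `l(m) ≤ √X / 2` for all
`m ≤ (log X)^A` with finite `l(m)`;
(3) for every `t ≥ A log X` such that `l(m) ≤ t / 2` for all `m ≤ (log X)^A` with finite `l(m)`, the
number of the `n ≤ X` with `l(n) > t` is `δ X` with an error of at most `A X / (log X)^(1/30)`;
(4) the number of the `n ≤ X` with `l(n) = ∞` is `δ X` with an error of at most
`A X / (log X)^(1/30)`. -/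
theorem result : ∃ A δ : ℝ, 0 < A ∧ 0 ≤ δ ∧ δ < 1 ∧ (δ = 0 ↔ ∀ n : ℕ, 1 ≤ n → Stops n) ∧
    ∀ X : ℝ, 2 ≤ X →
      δ * X - A * X / (Real.log X) ^ (1 / 30 : ℝ) ≤ count (fun n => ¬ StopsBy n n) X ∧
      ((∀ m : ℕ, 1 ≤ m → (m : ℝ) ≤ (Real.log X) ^ A → Stops m → StopsBy (√X / 2) m) →
        |count (fun n => ¬ StopsBy n n) X - δ * X| ≤ A * X / (Real.log X) ^ (1 / 30 : ℝ)) ∧
      (∀ t : ℝ, A * Real.log X ≤ t →
        (∀ m : ℕ, 1 ≤ m → (m : ℝ) ≤ (Real.log X) ^ A → Stops m → StopsBy (t / 2) m) →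
        |count (fun n => ¬ StopsBy t n) X - δ * X| ≤ A * X / (Real.log X) ^ (1 / 30 : ℝ)) ∧
      |count (fun n => ¬ Stops n) X - δ * X| ≤ A * X / (Real.log X) ^ (1 / 30 : ℝ) := by
  obtain ⟨A₀, hA₀, h⟩ := Pool.Agent.TH237.RT.int_rate
  obtain ⟨D, K, hD, hK, hf⟩ := fast
  have hset := set_rate (h 1 (Or.inl rfl))
  set A : ℝ := A₀ + K + 2 * D + 120 with hA
  have hA0 : 0 < A := by positivity
  have mono : ∀ a X : ℝ, 2 ≤ X → a ≤ A →
      a * X / (Real.log X) ^ (1 / 30 : ℝ) ≤ A * X / (Real.log X) ^ (1 / 30 : ℝ) := by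
    intro a X hX ha
    have hLr : 0 < (Real.log X) ^ (1 / 30 : ℝ) := Real.rpow_pos_of_pos (Real.log_pos (by linarith)) _
    exact div_le_div_of_nonneg_right (mul_le_mul_of_nonneg_right ha (by linarith)) hLr.le
  have hinv : ∀ n : ℕ, 1 ≤ n → (n ∈ {n : ℕ | ¬ Stops n} ↔ C n ∈ {n : ℕ | ¬ Stops n}) := by
    intro n hn
    show ¬ Stops n ↔ ¬ Stops (C n)
    rw [not_iff_not]
    constructor
    · rintro ⟨k, hk⟩
      rcases k with _ | k
      · have h1 : n = 1 := hk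
        rw [h1]
        exact ⟨2, by decide⟩
      · exact ⟨k, by rw [← Function.iterate_succ_apply]; exact hk⟩
    · rintro ⟨k, hk⟩
      exact ⟨k + 1, by rw [Function.iterate_succ_apply]; exact hk⟩
  obtain ⟨δ, h0, h1, h2, h3, h4⟩ := hset _ hinv
  have hlt : δ < 1 := by
    rcases h1.lt_or_eq with h5 | h5
    · exact h5
    · exfalso
      exact h3.1 h5 1 le_rfl ⟨0, rfl⟩
  refine ⟨A, δ, hA0, h0, hlt, ?_, fun X hX => ?_⟩
  · rw [h2]
    constructor
    · intro H n hn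
      by_contra hcon
      exact H n hn hcon
    · intro H n hn hcon
      exact hcon (H n hn)
  have hX0 : 0 < X := by linarith
  have hL : 0 < Real.log X := Real.log_pos (by linarith)
  set L := Real.log X with hLe
  have hLr : 0 < L ^ (1 / 30 : ℝ) := Real.rpow_pos_of_pos hL _
  have h5 : |count (fun n => ¬ Stops n) X - δ * X| ≤ A₀ * X / L ^ (1 / 30 : ℝ) := h4 X hX
  have hlow : ∀ P : ℕ → Prop, (∀ n : ℕ, 1 ≤ n → ¬ Stops n → P n) →
      δ * X - A₀ * X / L ^ (1 / 30 : ℝ) ≤ count P X := by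
    intro P hP
    have h6 := cnt_mono (X := X) (fun n hn _ => hP n hn)
    have h7 := (abs_le.1 h5).1
    linarith
  -- trivial bound
  have htriv : L ^ (1 / 30 : ℝ) ≤ A → ∀ P : ℕ → Prop, |count P X - δ * X| ≤ A * X / L ^ (1 / 30 : ℝ) := by
    intro hLA P
    have h6 : X ≤ A * X / L ^ (1 / 30 : ℝ) := by
      rw [le_div_iff₀ hLr]
      calc X * L ^ (1 / 30 : ℝ) ≤ X * A := mul_le_mul_of_nonneg_left hLA hX0.le
        _ = A * X := mul_comm _ _
    have h7 := cnt_le P hX0.le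
    have h8 : 0 ≤ count P X := Nat.cast_nonneg _
    have h9 : δ * X ≤ 1 * X := mul_le_mul_of_nonneg_right h1 hX0.le
    have h10 : 0 ≤ δ * X := mul_nonneg h0 hX0.le
    rw [abs_le]
    constructor <;> linarith
  have hupper : 1 ≤ L → ∀ t : ℝ, A * L ≤ t →
      (∀ m : ℕ, 1 ≤ m → (m : ℝ) ≤ L ^ A → Stops m → StopsBy (t / 2) m) →
      count (fun n => ¬ StopsBy t n) X ≤ δ * X + (A₀ + K) * X / L ^ (1 / 30 : ℝ) := by
    intro hL1 t ht hm
    have h6 := cnt_or (P := fun n => ¬ StopsBy t n) (Q := fun n => ¬ Stops n)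
      (R := fun n => ¬ ∃ o : ℕ, (o : ℝ) ≤ D * L ∧ ((C^[o] n : ℕ) : ℝ) ≤ L ^ D) (X := X) (by
        intro n hn hnX hns
        by_cases hst : Stops n
        · right
          rintro ⟨o, ho1, ho2⟩
          apply hns
          obtain ⟨k, hk⟩ := hst
          have hDt : D * L ≤ t / 2 := by
            have h7 : 2 * D * L ≤ A * L := mul_le_mul_of_nonneg_right (by linarith) hL.le
            linarith
          have ht0 : 0 ≤ t := le_trans (by positivity) ht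
          rcases le_or_gt k o with hko | hko
          · refine ⟨k, ?_, hk⟩
            have : (k : ℝ) ≤ o := by exact_mod_cast hko
            linarith
          · have hpos : ∀ j : ℕ, 1 ≤ C^[j] n := by
              intro j
              induction j with
              | zero => exact hn
              | succ j ih => rw [Function.iterate_succ_apply']; exact C_pos ih
            have h7 : Stops (C^[o] n) := ⟨k - o, by
              rw [← Function.iterate_add_apply, Nat.sub_add_cancel hko.le]; exact hk⟩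
            have h8 : L ^ D ≤ L ^ A := Real.rpow_le_rpow_of_exponent_le hL1 (by linarith)
            obtain ⟨j, hj1, hj2⟩ := hm (C^[o] n) (hpos o) (ho2.trans h8) h7
            refine ⟨j + o, ?_, ?_⟩
            · push_cast
              linarith
            · rw [Function.iterate_add_apply]; exact hj2
        · exact Or.inl hst)
    have h7 := hf X hX
    have h8 := (abs_le.1 h5).2
    have e : (A₀ + K) * X / L ^ (1 / 30 : ℝ) = A₀ * X / L ^ (1 / 30 : ℝ) + K * X / L ^ (1 / 30 : ℝ) := by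
      ring
    rw [e]
    linarith
  have hmA₀ : A₀ * X / L ^ (1 / 30 : ℝ) ≤ A * X / L ^ (1 / 30 : ℝ) := mono _ X hX (by linarith)
  have hd : ∀ t : ℝ, A * L ≤ t →
      (∀ m : ℕ, 1 ≤ m → (m : ℝ) ≤ L ^ A → Stops m → StopsBy (t / 2) m) →
      |count (fun n => ¬ StopsBy t n) X - δ * X| ≤ A * X / L ^ (1 / 30 : ℝ) := by
    intro t ht hm
    rcases le_or_gt 1 L with hL1 | hL1
    · have h6 := hupper hL1 t ht hm
      have h7 := hlow (fun n => ¬ StopsBy t n) (fun n _ hn ⟨k, _, hk⟩ => hn ⟨k, hk⟩)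
      have h8 : (A₀ + K) * X / L ^ (1 / 30 : ℝ) ≤ A * X / L ^ (1 / 30 : ℝ) := mono _ X hX (by linarith)
      rw [abs_le]
      constructor <;> linarith
    · exact htriv ((Real.rpow_le_one hL.le hL1.le (by norm_num)).trans (by linarith)) _
  refine ⟨?_, ?_, hd, h5.trans hmA₀⟩
  · have h7 := hlow (fun n => ¬ StopsBy n n) (fun n _ hn ⟨k, _, hk⟩ => hn ⟨k, hk⟩)
    linarith
  · intro hm
    by_cases hLA : L ^ (1 / 30 : ℝ) ≤ A
    · exact htriv hLA _
    push Not at hLA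
    have hL1 : 1 ≤ L := by
      by_contra hcon
      push Not at hcon
      have := Real.rpow_le_one hL.le hcon.le (by norm_num : (0 : ℝ) ≤ 1 / 30)
      linarith
    have h30 : L ^ (1 / 30 : ℝ) ≤ L := by
      calc L ^ (1 / 30 : ℝ) ≤ L ^ (1 : ℝ) := Real.rpow_le_rpow_of_exponent_le hL1 (by norm_num)
        _ = L := Real.rpow_one _
    have hL120 : 120 ≤ L := by linarith
    have h8 := Real.pow_div_factorial_le_exp L hL.le 5
    rw [hLe, Real.exp_log hX0, ← hLe] at h8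
    rw [div_le_iff₀ (by positivity)] at h8
    have h9 : ((Nat.factorial 5 : ℕ) : ℝ) = 120 := by norm_num [Nat.factorial]
    rw [h9] at h8
    have h10 : L ^ 4 ≤ X := by
      have : 120 * L ^ 4 ≤ L * L ^ 4 := mul_le_mul_of_nonneg_right hL120 (by positivity)
      nlinarith
    have h11 : L ^ 2 ≤ √X := by
      apply Real.le_sqrt_of_sq_le
      calc (L ^ 2) ^ 2 = L ^ 4 := by ring
        _ ≤ X := h10
    have hAL : A * L ≤ √X := by
      have : A * L ≤ L * L := mul_le_mul_of_nonneg_right (by linarith) hL.le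
      nlinarith
    have h12 := hupper hL1 (√X) hAL hm
    have h13 := cnt_or (P := fun n => ¬ StopsBy n n) (Q := fun n => ¬ StopsBy (√X) n)
      (R := fun n => (n : ℝ) ≤ √X) (X := X) (by
        intro n hn hnX hns
        by_cases hn1 : (n : ℝ) ≤ √X
        · exact Or.inr hn1
        · left
          rintro ⟨k, hk1, hk2⟩
          push Not at hn1
          exact hns ⟨k, by linarith, hk2⟩)
    have h14 : count (fun n => (n : ℝ) ≤ √X) X ≤ √X := by
      have h15 : count (fun n => (n : ℝ) ≤ √X) X ≤ count (fun _ => True) (√X) := by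
        unfold count
        have : {n : ℕ | 1 ≤ n ∧ (n : ℝ) ≤ X ∧ (n : ℝ) ≤ √X} ⊆
            {n : ℕ | 1 ≤ n ∧ (n : ℝ) ≤ √X ∧ True} := fun n hn => ⟨hn.1, hn.2.2, trivial⟩
        exact_mod_cast Set.ncard_le_ncard this (fin_cnt _ _)
      exact h15.trans (cnt_le _ (Real.sqrt_nonneg _))
    have h15 : √X ≤ X / L ^ (1 / 30 : ℝ) := by
      rw [le_div_iff₀ hLr]
      have h16 : L ^ (1 / 30 : ℝ) ≤ √X := by nlinarith
      calc √X * L ^ (1 / 30 : ℝ) ≤ √X * √X := mul_le_mul_of_nonneg_left h16 (Real.sqrt_nonneg _)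
        _ = X := Real.mul_self_sqrt hX0.le
    have h16 : (A₀ + K) * X / L ^ (1 / 30 : ℝ) + X / L ^ (1 / 30 : ℝ) ≤ A * X / L ^ (1 / 30 : ℝ) := by
      have e : (A₀ + K) * X / L ^ (1 / 30 : ℝ) + X / L ^ (1 / 30 : ℝ) =
          (A₀ + K + 1) * X / L ^ (1 / 30 : ℝ) := by ring
      rw [e]
      exact mono _ X hX (by linarith)
    have h17 := hlow (fun n => ¬ StopsBy n n) (fun n _ hn ⟨k, _, hk⟩ => hn ⟨k, hk⟩)
    rw [abs_le]
    constructor <;> linarith

end Pool.Agent.Results.MP_e43fce_nt.ExceptionCount
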