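import Mathlib
import Pool.Agent.TH932.S2.G.Col2

set_option autoImplicit false

/-!
# The parities of integers whose total stopping time exceeds them
-/

namespace Pool.Agent.Results.MP_e43fce_nt.ExceptionScales

open Pool.Agent.TH932.S2.G

/-- the Collatz function -/
def C (n : ℕ) : ℕ := if n % 2 = 0 then n / 2 else 3 * n + 1

/-- the total stopping time of `n` is `l` -/
def HasTime (n l : ℕ) : Prop := C^[l] n = 1 ∧ ∀ j, j < l → C^[j] n ≠ 1

/-- the number of different blocks of `N` consecutive parities among the `H` terms of the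
trajectory of `n` beginning with the `t`-th -/
noncomputable def blocksIn (n t H N : ℕ) : ℕ :=
  ((fun i : ℕ => fun j : Fin N => C^[t + i + j] n % 2) '' {i | i + N ≤ H}).ncard

lemma blocksIn_mono (n t : ℕ) {H H' : ℕ} (h : H ≤ H') (N : ℕ) :
    Col.blocksIn n t H N ≤ blocksIn n t H' N := by
  apply Set.ncard_le_ncard
  · exact Set.image_mono fun i hi => le_trans hi h
  · apply Set.Finite.subset
      (Set.finite_univ.image (fun v : Fin N → Fin 2 => fun j => ((v j : Fin 2) : ℕ)))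
    rintro _ ⟨i, _, rfl⟩
    exact ⟨fun j => ⟨C^[t + i + j] n % 2, Nat.mod_lt _ (by norm_num)⟩, trivial, rfl⟩

lemma blocks_le (n H H' N : ℕ) (h : H ≤ H') :
    Col.blocksUpTo (n : ℤ) H N ≤ blocksIn n 0 H' N :=
  (Col.blocksIn_eq n 0 H N).trans (blocksIn_mono n 0 h N)

/-- Small scales. -/
theorem small_scales (A R : ℝ) : ∃ K : ℕ,
    (∀ n l : ℕ, HasTime n l → K < n → K * Real.log n < l →
      ∃ m : ℕ, 1 ≤ m ∧ R ≤ m ∧ R * m ≤ Real.log n ∧ ∀ N : ℕ, m ≤ N → (N : ℝ) ≤ R * m →
        A * N < blocksIn n 0 ⌊K * Real.log n⌋₊ N) ∧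
    (∀ n : ℕ, (∀ j, C^[j] n ≠ 1) → K < n →
      (∃ m : ℕ, 1 ≤ m ∧ R ≤ m ∧ R * m ≤ Real.log n ∧ ∀ N : ℕ, m ≤ N → (N : ℝ) ≤ R * m →
        A * N < blocksIn n 0 ⌊K * Real.log n⌋₊ N) ∨
      ∃ i k : ℕ, (i : ℝ) ≤ K * Real.log n ∧ 1 ≤ k ∧ k ≤ K ∧ C^[k] (C^[i] n) = C^[i] n ∧
        ∀ j, C^[j] (C^[i] n) ≤ K) := by
  obtain ⟨K, hK⟩ := Col.dichotomy A R
  have key : ∀ n : ℕ, K + 4 < n →
      (∃ m : ℕ, 1 ≤ m ∧ R ≤ m ∧ R * m ≤ Real.log n ∧ ∀ N : ℕ, m ≤ N → (N : ℝ) ≤ R * m →
        A * N < blocksIn n 0 ⌊((K + 4 : ℕ) : ℝ) * Real.log n⌋₊ N) ∨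
      ∃ i k : ℕ, (i : ℝ) ≤ K * Real.log n ∧ 1 ≤ k ∧ k ≤ K ∧ C^[k] (C^[i] n) = C^[i] n ∧
        ∀ j, C^[j] (C^[i] n) ≤ K := by
    intro n hn
    have hlog : 0 ≤ Real.log n := Real.log_nonneg (by exact_mod_cast (by omega : 1 ≤ n))
    have habs : |(((n : ℕ) : ℤ) : ℝ)| = n := by
      rw [Int.cast_natCast, abs_of_nonneg (by positivity)]
    have hle : ⌊(K : ℝ) * Real.log n⌋₊ ≤ ⌊((K + 4 : ℕ) : ℝ) * Real.log n⌋₊ := by
      apply Nat.floor_le_floor
      push_cast
      nlinarith
    rcases hK (n : ℤ) (by rw [abs_of_nonneg (by positivity)]; exact_mod_cast (by omega : K < n))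
      with h | h
    · right
      obtain ⟨i, hi, ⟨k, hk1, hk2, hk⟩, hb⟩ := h
      rw [habs] at hi
      rw [← Col.Cn_iter, ← Col.Cn_iter] at hk
      refine ⟨i, k, hi, hk1, hk2, by exact_mod_cast hk, fun j => ?_⟩
      have h1 := hb j
      rw [← Col.Cn_iter, ← Col.Cn_iter, abs_of_nonneg (by positivity)] at h1
      exact_mod_cast h1
    · left
      obtain ⟨m, h1, h2, h3, h4⟩ := h
      rw [habs] at h3 h4
      refine ⟨m, h1, h2, h3, fun N a b => (h4 N a b).trans_le ?_⟩
      exact_mod_cast blocks_le n _ _ N hle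
  refine ⟨K + 4, fun n l hl hn hbig => ?_, fun n _ hn => ?_⟩
  · rcases key n hn with h | ⟨i, k, hi, hk1, hk2, hk, hb⟩
    · exact h
    · exfalso
      have hlog : (1 / 2 : ℝ) ≤ Real.log n := by
        have h1 := Real.log_two_gt_d9
        have h2 := Real.log_le_log (show (0 : ℝ) < 2 by norm_num)
          (by exact_mod_cast (by omega : 2 ≤ n) : (2 : ℝ) ≤ n)
        linarith
      push_cast at hbig
      have h2 : i + 2 < l := by
        have : ((i + 2 : ℕ) : ℝ) < l := by push_cast; nlinarith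
        exact_mod_cast this
      have hr : C^[l - i] (C^[i] n) = 1 := by
        rw [← Function.iterate_add_apply, Nat.sub_add_cancel (by omega)]
        exact hl.1
      rcases Col.per_one hk1 hk hr with h3 | h3 | h3
      · exact hl.2 i (by omega) h3
      · refine hl.2 (i + 1) (by omega) ?_
        rw [Function.iterate_succ_apply', h3]
        rfl
      · refine hl.2 (i + 2) (by omega) ?_
        rw [Function.iterate_succ_apply', Function.iterate_succ_apply', h3]
        rfl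
  · rcases key n hn with h | ⟨i, k, hi, hk1, hk2, hk, hb⟩
    · exact Or.inl h
    · right
      refine ⟨i, k, ?_, hk1, by omega, hk, fun j => (hb j).trans (by omega)⟩
      have hlog : 0 ≤ Real.log n := Real.log_nonneg (by exact_mod_cast (by omega : 1 ≤ n))
      push_cast
      nlinarith

/-- **Result.** For every real `A` there is `K` with the following properties (1), (2), (3), and
for all real `A`, `R` there is `K` with the property (4).

(1) Let `l` be the (finite) total stopping time of `n`, and let `t` and `N ≥ K` be such that the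
`t`-th term of the trajectory is at most `2 ^ N` and `t + N ^ K < l`. Then more than `A N` different
blocks of `N` consecutive parities occur among the `N ^ K` terms beginning with the `t`-th.

(2) In particular this holds for the first `N ^ K` terms if `n < l` (so that `n` is an
exception), `n ≤ 2 ^ N` and `K ≤ N` and `N ^ K ≤ n`.

(3) Suppose that `n` does not reach `1` (an exception with infinite total stopping time), and let
`t` and `N ≥ K` be such that the `t`-th term of the trajectory is at most `2 ^ N`. Then more than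
`A N` different blocks of `N` consecutive parities occur among the `N ^ K` terms beginning with
the `t`-th, or the trajectory reaches at most `N ^ K` steps after `t` a cycle of length at most
`N ^ K`, and all its terms from the `t`-th on are at most `2 ^ (K N)`.

(4) If `n > K` and the total stopping time of `n` is finite and larger than `K log n`, then there is
an interval `[m, R m]` with `m ≥ R` and `R m ≤ log n` such that for all integers `N` in it more than
`A N` different blocks of `N` consecutive parities occur among the first `K log n` terms. If `n > K`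
does not reach `1`, then this is true, or the trajectory reaches after at most `K log n` steps a
cycle of length at most `K` with elements at most `K`. -/
theorem result (A : ℝ) : (∃ K : ℕ,
    (∀ n l t N : ℕ, HasTime n l → K ≤ N → C^[t] n ≤ 2 ^ N → t + N ^ K < l →
      A * N < blocksIn n t (N ^ K) N) ∧
    (∀ n l N : ℕ, HasTime n l → n < l → K ≤ N → n ≤ 2 ^ N → N ^ K ≤ n →
      A * N < blocksIn n 0 (N ^ K) N) ∧
    (∀ n t N : ℕ, (∀ j, C^[j] n ≠ 1) → K ≤ N → C^[t] n ≤ 2 ^ N →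
      A * N < blocksIn n t (N ^ K) N ∨
      ((∃ i k, t ≤ i ∧ i ≤ t + N ^ K ∧ 1 ≤ k ∧ k ≤ N ^ K ∧ C^[k] (C^[i] n) = C^[i] n) ∧
        ∀ j, t ≤ j → C^[j] n ≤ 2 ^ (K * N)))) ∧
    (∀ R : ℝ, ∃ K : ℕ,
      (∀ n l : ℕ, HasTime n l → K < n → K * Real.log n < l →
        ∃ m : ℕ, 1 ≤ m ∧ R ≤ m ∧ R * m ≤ Real.log n ∧ ∀ N : ℕ, m ≤ N → (N : ℝ) ≤ R * m →
          A * N < blocksIn n 0 ⌊K * Real.log n⌋₊ N) ∧
      (∀ n : ℕ, (∀ j, C^[j] n ≠ 1) → K < n →
        (∃ m : ℕ, 1 ≤ m ∧ R ≤ m ∧ R * m ≤ Real.log n ∧ ∀ N : ℕ, m ≤ N → (N : ℝ) ≤ R * m →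
          A * N < blocksIn n 0 ⌊K * Real.log n⌋₊ N) ∨
        ∃ i k : ℕ, (i : ℝ) ≤ K * Real.log n ∧ 1 ≤ k ∧ k ≤ K ∧ C^[k] (C^[i] n) = C^[i] n ∧
          ∀ j, C^[j] (C^[i] n) ≤ K)) := by
  refine ⟨?_, small_scales A⟩
  obtain ⟨K0, h⟩ := Col.one_scale_nat A
  have hpow : ∀ N : ℕ, K0 + 2 ≤ N → N ^ K0 + 3 ≤ N ^ (K0 + 2) := by
    intro N hN
    have h1 : 1 ≤ N ^ K0 := Nat.one_le_pow _ _ (by omega)
    have h2 : 2 ^ 2 ≤ N ^ 2 := Nat.pow_le_pow_left (by omega) 2
    have h3 : N ^ K0 * 2 ^ 2 ≤ N ^ K0 * N ^ 2 := Nat.mul_le_mul_left _ h2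
    rw [pow_add]
    omega
  -- the conclusion of the theorem for few blocks
  have key : ∀ n t N : ℕ, K0 + 2 ≤ N → C^[t] n ≤ 2 ^ N →
      (blocksIn n t (N ^ (K0 + 2)) N : ℝ) ≤ A * N →
      (∃ i k, t ≤ i ∧ i ≤ t + N ^ K0 ∧ 1 ≤ k ∧ k ≤ N ^ K0 ∧ C^[k] (C^[i] n) = C^[i] n) ∧
        ∀ j, t ≤ j → C^[j] n ≤ 2 ^ (K0 * N) := by
    intro n t N hN hx hcx
    refine h n t N (by omega) hx (le_trans ?_ hcx)
    exact_mod_cast blocksIn_mono n t (by have := hpow N hN; omega) N
  have h1 : ∀ n l t N : ℕ, HasTime n l → K0 + 2 ≤ N → C^[t] n ≤ 2 ^ N →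
      t + N ^ (K0 + 2) < l → A * N < blocksIn n t (N ^ (K0 + 2)) N := by
    intro n l t N hl hN hx ht
    by_contra hcon
    push Not at hcon
    obtain ⟨⟨i, k, hi1, hi2, hk1, hk2, hk⟩, -⟩ := key n t N hN hx hcon
    have hp := hpow N hN
    have hil : i < l := by omega
    have hr : C^[l - i] (C^[i] n) = 1 := by
      rw [← Function.iterate_add_apply, Nat.sub_add_cancel hil.le]
      exact hl.1
    rcases Col.per_one hk1 hk hr with h2 | h2 | h2
    · exact hl.2 i hil h2
    · refine hl.2 (i + 1) (by omega) ?_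
      rw [Function.iterate_succ_apply', h2]
      rfl
    · refine hl.2 (i + 2) (by omega) ?_
      rw [Function.iterate_succ_apply', Function.iterate_succ_apply', h2]
      rfl
  refine ⟨K0 + 2, h1, ?_, ?_⟩
  · intro n l N hl hn hN hx hNn
    exact h1 n l 0 N hl hN hx (by omega)
  · intro n t N _ hN hx
    by_cases hcon : A * N < blocksIn n t (N ^ (K0 + 2)) N
    · exact Or.inl hcon
    · right
      push Not at hcon
      obtain ⟨⟨i, k, hi1, hi2, hk1, hk2, hk⟩, hb⟩ := key n t N hN hx hcon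
      have hp := hpow N hN
      refine ⟨⟨i, k, hi1, by omega, hk1, by omega, hk⟩, fun j hj => (hb j hj).trans ?_⟩
      exact Nat.pow_le_pow_right (by norm_num) (Nat.mul_le_mul_right _ (by omega))

end Pool.Agent.Results.MP_e43fce_nt.ExceptionScales
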