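import Pool.Agent.TH465.LN.Nat

set_option autoImplicit false

/-!
The total stopping time of the Collatz function along sums with primes.

At the integers `n - p - q` (`p`, `q` prime, for every large `n`), `p - k` (`p` prime, for almost all
`k`) and `n - p` (`p` prime, for almost all `n`) the inequality `l(m) ≤ m` fails with the same frequency
as at all positive integers `m`, and the total stopping times obey the same limit law and have the same
truncated averages.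
-/

namespace Pool.Agent.Results.MP_e43fce_nt.SumsWithPrimes

open Filter Topology

/-- the Collatz function -/
def C (n : ℕ) : ℕ := if n % 2 = 0 then n / 2 else 3 * n + 1

/-- the total stopping time `l(n)`, the least `k ≥ 0` with `C^k(n) = 1`, and `⊤ = ∞` if there is none -/
noncomputable def l (n : ℕ) : ℕ∞ := sInf {k : ℕ∞ | ∃ j : ℕ, C^[j] n = 1 ∧ k = j}

/-- `min (l(n), t)` -/
noncomputable def truncated (t : ℝ) (n : ℕ) : ℝ := if l n = ⊤ then t else min ((l n).toNat : ℝ) t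

/-- the positive integers with the property `P` have the natural density `δ` -/
def HasDensity (P : ℕ → Prop) (δ : ℝ) : Prop :=
  Tendsto (fun N : ℕ => ({n : ℕ | 1 ≤ n ∧ n ≤ N ∧ P n}.ncard : ℝ) / N) atTop (𝓝 δ)

/-- `3 / log (4/3) * log n + x * log 6 * √(2 log n / (log (4/3))^3)` -/
noncomputable def bound (x : ℝ) (n : ℕ) : ℝ :=
  3 / Real.log (4 / 3) * Real.log n
    + x * (Real.log 6 * Real.sqrt (2 * Real.log n / Real.log (4 / 3) ^ 3))

/-- The distribution function of the standard normal law. -/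
noncomputable def Phi (x : ℝ) : ℝ :=
  ProbabilityTheory.cdf (ProbabilityTheory.gaussianReal 0 1) x

/-- `l(n)` is finite, at most `bound x n` and congruent to `r` modulo `m`. -/
def Level (m : ℕ) (r : ℤ) (x : ℝ) (n : ℕ) : Prop :=
  ∃ t : ℕ, l n = t ∧ (t : ℝ) ≤ bound x n ∧ (t : ℤ) ≡ r [ZMOD m]

/-- `n` is an exception to the inequality `l(n) ≤ n`. -/
def Exceptional (n : ℕ) : Prop := (n : ℕ∞) < l n

/-- the pairs of primes `(p, q)` with `p + q < n` -/
def Pairs (n : ℕ) : Finset (ℕ × ℕ) :=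
  (Finset.range n ×ˢ Finset.range n).filter (fun z => z.1.Prime ∧ z.2.Prime ∧ z.1 + z.2 < n)

/-- the primes in `(k, k + N]` -/
def Shifted (k N : ℕ) : Finset ℕ := (Finset.Ioc k (k + N)).filter Nat.Prime

/-- the primes below `n` -/
def Below (n : ℕ) : Finset ℕ := (Finset.range n).filter Nat.Prime

/-- The statement that among the integers `n - p - q` for every large `n`, and among the `p - k` and
`n - p` for almost all `k` and `n`, the proportion of the integers with the property `P` is `d`. -/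
def AlongPrimes (P : ℕ → Prop) (d : ℝ) : Prop :=
  ∀ ε : ℝ, 0 < ε →
    (∃ n₀ : ℕ, ∀ n : ℕ, n₀ ≤ n →
      |({z : ℕ × ℕ | z ∈ Pairs n ∧ P (n - z.1 - z.2)}.ncard : ℝ) * Real.log n ^ 2 - d * (n ^ 2 / 2)| ≤ ε * n ^ 2) ∧
    (∀ A : ℕ, ∃ N₀ : ℕ, ∀ N : ℕ, N₀ ≤ N → ∃ X : Finset ℕ, (X.card : ℝ) * Real.log N ^ A ≤ N ∧
      ∀ k ∈ Finset.Icc 1 N, k ∉ X →
      |({p : ℕ | p ∈ Shifted k N ∧ P (p - k)}.ncard : ℝ) * Real.log N - d * N| ≤ ε * N) ∧
    (∀ A : ℕ, ∃ N₀ : ℕ, ∀ N : ℕ, N₀ ≤ N → ∃ X : Finset ℕ, (X.card : ℝ) * Real.log N ^ A ≤ N ∧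
      ∀ n ∈ Finset.Ioc N (2 * N), n ∉ X →
      |({p : ℕ | p ∈ Below n ∧ P (n - p)}.ncard : ℝ) * Real.log n - d * n| ≤ ε * n)

open Pool.Agent.TH465.LN in
theorem l_eq {n t : ℕ} (h : Ts n t) : l n = t := by
  unfold l
  apply le_antisymm
  · exact sInf_le ⟨t, h.1, rfl⟩
  · refine le_sInf ?_
    rintro j ⟨i, hi, rfl⟩
    have : t ≤ i := by
      by_contra hlt
      exact h.2 i (by omega) hi
    exact_mod_cast this

open Pool.Agent.TH465.LN in
theorem exists_Ts {n j : ℕ} (h : C^[j] n = 1) : ∃ t, Ts n t := by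
  classical
  have hex : ∃ k, C^[k] n = 1 := ⟨j, h⟩
  exact ⟨Nat.find hex, Nat.find_spec hex, fun i hi => Nat.find_min hex hi⟩

open Pool.Agent.TH465.LN in
theorem l_top {n : ℕ} (h : ¬ ∃ t, Ts n t) : l n = ⊤ := by
  unfold l
  have : {k : ℕ∞ | ∃ j : ℕ, C^[j] n = 1 ∧ k = j} = ∅ := by
    rw [Set.eq_empty_iff_forall_notMem]
    rintro k ⟨j, hj, _⟩
    exact h (exists_Ts hj)
  rw [this, sInf_empty]

open Pool.Agent.TH465.LN in
theorem l_ne_top {n : ℕ} : l n ≠ ⊤ ↔ ∃ t, Ts n t := by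
  constructor
  · intro h
    by_contra hcon
    exact h (l_top hcon)
  · rintro ⟨k, hk⟩
    rw [l_eq hk]
    exact ENat.natCast_ne_top k

open Pool.Agent.TH465.LN in
theorem l_iff {n k : ℕ} : l n = k ↔ Ts n k := by
  constructor
  · intro h
    obtain ⟨k', hk'⟩ := l_ne_top.1 (show l n ≠ ⊤ by rw [h]; exact ENat.natCast_ne_top k)
    have h1 := l_eq hk'
    rw [h] at h1
    have h2 : k = k' := by exact_mod_cast h1
    rw [h2]; exact hk'
  · exact l_eq

open Pool.Agent.TH465.LN in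
theorem exceptional_iff (n : ℕ) : Exceptional n ↔ ¬ ∃ t : ℕ, Ts n t ∧ t ≤ n := by
  unfold Exceptional
  constructor
  · rintro h ⟨t, ht, htn⟩
    rw [l_eq ht] at h
    have : n < t := by exact_mod_cast h
    omega
  · intro h
    by_cases h1 : ∃ t, Ts n t
    · obtain ⟨t, ht⟩ := h1
      rw [l_eq ht]
      have : n < t := by
        by_contra hcon
        exact h ⟨t, ht, by omega⟩
      exact_mod_cast this
    · rw [l_top h1]
      exact ENat.natCast_lt_top n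

open Pool.Agent.TH465.LN in
theorem truncated_isTr : Pool.Agent.TH465.PP.IsTrG valL truncated := by
  constructor
  · intro t n k hk
    unfold truncated
    rw [l_eq (Ts_of_H hk), if_neg (ENat.natCast_ne_top _), ENat.toNat_natCast]
    unfold valL
    push_cast
    rfl
  · intro t n hn
    unfold truncated
    rw [l_top, if_pos rfl]
    rintro ⟨t', ht'⟩
    obtain ⟨k, hk, _⟩ := (Ts_iff n t').1 ht'
    exact hn ⟨k, hk⟩

open Pool.Agent.TH465.LN in
theorem level_iff (m : ℕ) (r : ℤ) (x : ℝ) (n : ℕ) :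
    Pool.Agent.TH465.PP.Lv valL (clsL m r) (Pool.Agent.TH465.PP.th A1 c1 x) n ↔ Level m r x n := by
  rw [lvL_iff]
  unfold Level
  constructor
  · rintro ⟨t, h1, h2, h3⟩
    exact ⟨t, l_iff.2 h2, h1, h3⟩
  · rintro ⟨t, h2, h1, h3⟩
    exact ⟨t, h1, l_iff.1 h2, h3⟩

/-- THE TOTAL STOPPING TIME ALONG SUMS WITH PRIMES. Let `δ > 0` be the natural density of the positive
integers `n` with `l(n) < ∞` (`δ = 1` iff all are of this kind). Then, in the sense of `AlongPrimes`: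
(1) the exceptions `l(m) > m` have proportion `1 - δ`; (2) the `m` with `l(m)` congruent to `r` modulo
`q` and at most `3 / log (4/3) * log m + x * log 6 * √(2 log m / (log (4/3))^3)` have proportion
`δ * Phi x / q`. (3) For `Λ > 3 / log (4/3)` the sums of `min (l, Λ log)` over the same pairs of primes
and primes are asymptotically `(δ * 3 / log (4/3) + (1 - δ) * Λ)` times `log n * n ^ 2 / (2 log ^ 2 n)`,
`N` and `n`. -/
theorem result : ∃ δ : ℝ, 0 < δ ∧ δ ≤ 1 ∧ (δ = 1 ↔ ∀ n : ℕ, 1 ≤ n → l n ≠ ⊤) ∧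
    HasDensity (fun n => l n ≠ ⊤) δ ∧
    AlongPrimes Exceptional (1 - δ) ∧
    (∀ (q : ℕ) (r : ℤ) (x : ℝ), 1 ≤ q → AlongPrimes (Level q r x) (δ * Phi x / q)) ∧
    (∀ Λ : ℝ, 3 / Real.log (4 / 3) < Λ → ∀ ε : ℝ, 0 < ε →
      (∃ n₀ : ℕ, ∀ n : ℕ, n₀ ≤ n →
        |(∑ z ∈ Pairs n, truncated (Λ * Real.log n) (n - z.1 - z.2)) * Real.log n -
          (δ * (3 / Real.log (4 / 3)) + (1 - δ) * Λ) * (n ^ 2 / 2)| ≤ ε * n ^ 2) ∧
      (∀ A : ℕ, ∃ N₀ : ℕ, ∀ N : ℕ, N₀ ≤ N → ∃ X : Finset ℕ, (X.card : ℝ) * Real.log N ^ A ≤ N ∧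
        ∀ k ∈ Finset.Icc 1 N, k ∉ X →
        |∑ p ∈ Shifted k N, truncated (Λ * Real.log N) (p - k) -
          (δ * (3 / Real.log (4 / 3)) + (1 - δ) * Λ) * N| ≤ ε * N) ∧
      (∀ A : ℕ, ∃ N₀ : ℕ, ∀ N : ℕ, N₀ ≤ N → ∃ X : Finset ℕ, (X.card : ℝ) * Real.log N ^ A ≤ N ∧
        ∀ n ∈ Finset.Ioc N (2 * N), n ∉ X →
        |∑ p ∈ Below n, truncated (Λ * Real.log n) (n - p) -
          (δ * (3 / Real.log (4 / 3)) + (1 - δ) * Λ) * n| ≤ ε * n)) := by
  obtain ⟨δ, hδ, h2, h3⟩ := Pool.Agent.TH465.LN.denL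
  have hT : ∀ n : ℕ, l n ≠ ⊤ ↔ ∃ k : ℕ, C^[k] n = 1 := by
    intro n
    rw [l_ne_top]
    constructor
    · rintro ⟨k, hk⟩; exact ⟨k, hk.1⟩
    · rintro ⟨k, hk⟩; exact exists_Ts hk
  refine ⟨δ, hδ.pos, hδ.le_one, ?_, ?_, fun ε hε => ⟨?_, fun A => ?_, fun A => ?_⟩,
    fun q r x hq ε hε => ⟨?_, fun A => ?_, fun A => ?_⟩, fun Λ hΛ ε hε => ⟨?_, fun A => ?_, fun A => ?_⟩⟩
  · rw [h2]
    exact forall₂_congr fun n _ => (hT n).symm
  · have : HasDensity (fun n => ∃ k : ℕ, C^[k] n = 1) δ := h3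
    simpa only [hT] using this
  · obtain ⟨n₀, h⟩ := eventually_atTop.1 (Pool.Agent.TH465.LN.tern_not
      (P := fun m => ∃ t : ℕ, Pool.Agent.TH465.LN.Ts m t ∧ t ≤ m) (Pool.Agent.TH465.LN.app_le hδ) ε hε)
    refine ⟨n₀, fun n hn => ?_⟩
    simp only [exceptional_iff]
    exact h n hn
  · obtain ⟨n₀, h⟩ := eventually_atTop.1 (Pool.Agent.TH465.LN.diff_not
      (P := fun m => ∃ t : ℕ, Pool.Agent.TH465.LN.Ts m t ∧ t ≤ m) (Pool.Agent.TH465.LN.app_le hδ) A ε hε)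
    refine ⟨n₀, fun n hn => ?_⟩
    simp only [exceptional_iff]
    exact h n hn
  · obtain ⟨n₀, h⟩ := eventually_atTop.1 (Pool.Agent.TH465.LN.sum_not
      (P := fun m => ∃ t : ℕ, Pool.Agent.TH465.LN.Ts m t ∧ t ≤ m) (Pool.Agent.TH465.LN.app_le hδ) A ε hε)
    refine ⟨n₀, fun n hn => ?_⟩
    simp only [exceptional_iff]
    exact h n hn
  · obtain ⟨n₀, h⟩ := eventually_atTop.1 (Pool.Agent.TH465.LN.tern_nat (Pool.Agent.TH465.LN.app_levelL hδ hq r x) ε hε)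
    refine ⟨n₀, fun n hn => ?_⟩
    have h4 := h n hn
    simp only [level_iff] at h4
    rw [Pool.Agent.H499R2.ND.phi_cdf] at h4
    exact h4
  · obtain ⟨n₀, h⟩ := eventually_atTop.1 (Pool.Agent.TH465.LN.diff_nat (Pool.Agent.TH465.LN.app_levelL hδ hq r x) A ε hε)
    refine ⟨n₀, fun n hn => ?_⟩
    have h4 := h n hn
    simp only [level_iff] at h4
    rw [Pool.Agent.H499R2.ND.phi_cdf] at h4
    exact h4
  · obtain ⟨n₀, h⟩ := eventually_atTop.1 (Pool.Agent.TH465.LN.sum_nat (Pool.Agent.TH465.LN.app_levelL hδ hq r x) A ε hε)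
    refine ⟨n₀, fun n hn => ?_⟩
    have h4 := h n hn
    simp only [level_iff] at h4
    rw [Pool.Agent.H499R2.ND.phi_cdf] at h4
    exact h4
  · obtain ⟨n₀, h⟩ := eventually_atTop.1 (Pool.Agent.TH465.LN.avg_ternG Pool.Agent.TH465.LN.valL_nn
      Pool.Agent.TH465.LN.A1_pos Pool.Agent.TH465.LN.c1_pos hδ.pos.le hδ.le_one hδ.fin hδ.lawG truncated_isTr hΛ ε hε)
    exact ⟨n₀, fun n hn => h n hn⟩
  · obtain ⟨n₀, h⟩ := eventually_atTop.1 (Pool.Agent.TH465.LN.avg_diffG Pool.Agent.TH465.LN.valL_nn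
      Pool.Agent.TH465.LN.A1_pos Pool.Agent.TH465.LN.c1_pos hδ.pos.le hδ.le_one hδ.fin hδ.lawG truncated_isTr hΛ A ε hε)
    exact ⟨n₀, fun n hn => h n hn⟩
  · obtain ⟨n₀, h⟩ := eventually_atTop.1 (Pool.Agent.TH465.LN.avg_sumG Pool.Agent.TH465.LN.valL_nn
      Pool.Agent.TH465.LN.A1_pos Pool.Agent.TH465.LN.c1_pos hδ.pos.le hδ.le_one hδ.fin hδ.lawG truncated_isTr hΛ A ε hε)
    exact ⟨n₀, fun n hn => h n hn⟩

end Pool.Agent.Results.MP_e43fce_nt.SumsWithPrimes
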