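import Pool.Agent.TH930.HW.Three
import Pool.Agent.H828R3.GP.Col
import Pool.Agent.H499R2.LT.R6

set_option autoImplicit false

/-! The density of the integers with `l(n) > n`: the saving given a verification of the `3x+1` conjecture
up to `y`, with an exponent beyond the entropy exponent. -/

namespace Pool.Agent.Results.MP_e43fce_nt.VerifiedRange

open Filter Topology
open Pool.Agent.H499R2.ND (Cz Td)
open Pool.Agent.H319R2 (beta beta_lt)

/-- the Collatz function -/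
def C (n : ℕ) : ℕ := if n % 2 = 0 then n / 2 else 3 * n + 1

/-- `l(n) ≤ t`: one of the iterates `C^(k)(n)` with `k ≤ t` is `1` -/
def StopsBy (t : ℝ) (n : ℕ) : Prop := ∃ k : ℕ, (k : ℝ) ≤ t ∧ C^[k] n = 1

/-- the positive integers with the property `P` have the natural density `δ` -/
def HasDensity (P : ℕ → Prop) (δ : ℝ) : Prop :=
  Tendsto (fun N : ℕ => ({n : ℕ | 1 ≤ n ∧ n ≤ N ∧ P n}.ncard : ℝ) / N) atTop (𝓝 δ)

/-- the binary entropy of `log_3 2`, in bits: `0.94995...` -/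
noncomputable def H : ℝ := Real.binEntropy (Real.log 2 / Real.log 3) / Real.log 2

theorem fin_le (P : ℕ → Prop) (N : ℕ) : {n : ℕ | 1 ≤ n ∧ n ≤ N ∧ P n}.Finite :=
  (Set.finite_Icc 1 N).subset fun _ h => ⟨h.1, h.2.1⟩

theorem dens_compl {P : ℕ → Prop} {δ : ℝ} (h : HasDensity P δ) : HasDensity (fun n => ¬ P n) (1 - δ) := by
  unfold HasDensity at h ⊢
  refine (h.const_sub 1).congr' ?_
  filter_upwards [eventually_ge_atTop 1] with N hN
  have hN0 : (N : ℝ) ≠ 0 := by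
    have : N ≠ 0 := by omega
    exact_mod_cast this
  have h1 : {n : ℕ | 1 ≤ n ∧ n ≤ N ∧ P n} ∪ {n : ℕ | 1 ≤ n ∧ n ≤ N ∧ ¬ P n} =
      ((Finset.Icc 1 N : Finset ℕ) : Set ℕ) := by
    ext n
    rw [Finset.coe_Icc, Set.mem_Icc, Set.mem_union]
    constructor
    · rintro (h | h) <;> exact ⟨h.1, h.2.1⟩
    · intro h
      by_cases hP : P n
      · exact Or.inl ⟨h.1, h.2, hP⟩
      · exact Or.inr ⟨h.1, h.2, hP⟩
  have h2 : Disjoint {n : ℕ | 1 ≤ n ∧ n ≤ N ∧ P n} {n : ℕ | 1 ≤ n ∧ n ≤ N ∧ ¬ P n} := by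
    rw [Set.disjoint_left]
    rintro n h h'
    exact h'.2.2 h.2.2
  have h3 := Set.ncard_union_eq h2 (fin_le _ N) (fin_le _ N)
  rw [h1, Set.ncard_coe_finset, Nat.card_Icc, Nat.add_sub_cancel] at h3
  have h4 : (N : ℝ) = ({n : ℕ | 1 ≤ n ∧ n ≤ N ∧ P n}.ncard : ℝ) +
      ({n : ℕ | 1 ≤ n ∧ n ≤ N ∧ ¬ P n}.ncard : ℝ) := by exact_mod_cast h3
  rw [eq_div_iff hN0, sub_mul, one_mul, div_mul_cancel₀ _ hN0]
  linarith

/-- sandwich -/
theorem dens_of {Q P U : ℕ → Prop} {δ : ℝ} (hU : HasDensity U δ) (hPU : ∀ n, P n → U n)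
    (hlow : ∀ ε : ℝ, 0 < ε → ∃ (Q : ℕ → Prop) (δ' : ℝ), HasDensity Q δ' ∧ δ - ε < δ' ∧
      ∀ᶠ n : ℕ in atTop, Q n → P n) : HasDensity P δ := by
  unfold HasDensity at hU ⊢
  rw [Metric.tendsto_atTop] at hU ⊢
  intro ε hε
  obtain ⟨N1, h1⟩ := hU ε hε
  obtain ⟨Q, δ', hQ, hδ', hev⟩ := hlow (ε / 3) (by positivity)
  unfold HasDensity at hQ
  rw [Metric.tendsto_atTop] at hQ
  obtain ⟨N2, h2⟩ := hQ (ε / 3) (by positivity)
  obtain ⟨n0, hn0⟩ := eventually_atTop.1 hev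
  obtain ⟨N3, hN3⟩ := exists_nat_gt (3 * ((n0 : ℝ) + 1) / ε)
  refine ⟨max (max N1 N2) (max N3 1), fun N hN => ?_⟩
  have hN1 : N1 ≤ N := ((le_max_left _ _).trans (le_max_left _ _)).trans hN
  have hN2 : N2 ≤ N := ((le_max_right _ _).trans (le_max_left _ _)).trans hN
  have hN3' : N3 ≤ N := ((le_max_left _ _).trans (le_max_right _ _)).trans hN
  have hN4 : 1 ≤ N := ((le_max_right _ _).trans (le_max_right _ _)).trans hN
  have hNR : (0 : ℝ) < N := by exact_mod_cast hN4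
  have a1 := h1 N hN1
  have a2 := h2 N hN2
  rw [Real.dist_eq, abs_lt] at a1 a2 ⊢
  have b1 : ({n : ℕ | 1 ≤ n ∧ n ≤ N ∧ P n}.ncard : ℝ) ≤ ({n : ℕ | 1 ≤ n ∧ n ≤ N ∧ U n}.ncard : ℝ) := by
    have hsub : {n : ℕ | 1 ≤ n ∧ n ≤ N ∧ P n} ⊆ {n : ℕ | 1 ≤ n ∧ n ≤ N ∧ U n} := by
      rintro n ⟨h3, h4, h5⟩
      exact ⟨h3, h4, hPU n h5⟩
    exact_mod_cast Set.ncard_le_ncard hsub (fin_le _ N)
  have b2 : ({n : ℕ | 1 ≤ n ∧ n ≤ N ∧ Q n}.ncard : ℝ) ≤ ({n : ℕ | 1 ≤ n ∧ n ≤ N ∧ P n}.ncard : ℝ) +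
      (n0 + 1) := by
    have hsub : {n : ℕ | 1 ≤ n ∧ n ≤ N ∧ Q n} ⊆ {n : ℕ | 1 ≤ n ∧ n ≤ N ∧ P n} ∪
        ((Finset.range (n0 + 1) : Finset ℕ) : Set ℕ) := by
      rintro n ⟨h3, h4, h5⟩
      rcases Nat.lt_or_ge n n0 with h6 | h6
      · right
        rw [Finset.coe_range, Set.mem_Iio]; omega
      · left
        exact ⟨h3, h4, hn0 n h6 h5⟩
    have h3 := (Set.ncard_le_ncard hsub ((fin_le _ N).union (Finset.finite_toSet _))).trans
      (Set.ncard_union_le _ _)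
    rw [Set.ncard_coe_finset, Finset.card_range] at h3
    exact_mod_cast h3
  have b3 : ((n0 : ℝ) + 1) / N < ε / 3 := by
    rw [div_lt_iff₀ hNR]
    have h3 : 3 * ((n0 : ℝ) + 1) / ε < N := lt_of_lt_of_le hN3 (by exact_mod_cast hN3')
    rw [div_lt_iff₀ hε] at h3
    linarith
  have c1 : ({n : ℕ | 1 ≤ n ∧ n ≤ N ∧ P n}.ncard : ℝ) / N ≤ ({n : ℕ | 1 ≤ n ∧ n ≤ N ∧ U n}.ncard : ℝ) / N :=
    div_le_div_of_nonneg_right b1 hNR.le
  have c2 : ({n : ℕ | 1 ≤ n ∧ n ≤ N ∧ Q n}.ncard : ℝ) / N ≤ ({n : ℕ | 1 ≤ n ∧ n ≤ N ∧ P n}.ncard : ℝ) / N +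
      ((n0 : ℝ) + 1) / N := by
    rw [← add_div]; exact div_le_div_of_nonneg_right b2 hNR.le
  constructor
  · linarith [a2.1]
  · linarith [a1.2]

/-- the normal range is below `K log n` for `K > 3 / log (4/3)` -/
theorem bound_le {K : ℝ} (hK : 3 / Real.log (4 / 3) < K) (x : ℝ) : ∀ᶠ n : ℕ in atTop,
    3 / Real.log (4 / 3) * Real.log n + x * (Real.log 6 * Real.sqrt (2 * Real.log n / Real.log (4 / 3) ^ 3))
      ≤ K * Real.log n := by
  set κ := 3 / Real.log (4 / 3) with hκ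
  have hL : 0 < Real.log (4 / 3) := Real.log_pos (by norm_num)
  have h6 : 0 < Real.log 6 := Real.log_pos (by norm_num)
  set e := K - κ with he
  have he0 : 0 < e := by linarith
  set M := |x| * Real.log 6 with hM
  have hM0 : 0 ≤ M := by positivity
  set A := 2 / Real.log (4 / 3) ^ 3 with hA
  have hA0 : 0 < A := by positivity
  have ht : Tendsto (fun n : ℕ => Real.log (n : ℝ)) atTop atTop :=
    Real.tendsto_log_atTop.comp tendsto_natCast_atTop_atTop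
  filter_upwards [ht.eventually_ge_atTop (M ^ 2 * A / e ^ 2), ht.eventually_ge_atTop 0] with n h1 h2
  set t := Real.log (n : ℝ) with htt
  have h3 : 2 * t / Real.log (4 / 3) ^ 3 = A * t := by rw [hA]; ring
  rw [h3]
  have h4 : M * Real.sqrt (A * t) ≤ e * t := by
    have h5 : M * Real.sqrt (A * t) = Real.sqrt (M ^ 2 * (A * t)) := by
      rw [Real.sqrt_mul (sq_nonneg M) (A * t), Real.sqrt_sq hM0]
    rw [h5]
    apply Real.sqrt_le_iff.2
    refine ⟨by positivity, ?_⟩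
    rw [div_le_iff₀ (by positivity)] at h1
    nlinarith
  have h5 : x * (Real.log 6 * Real.sqrt (A * t)) ≤ M * Real.sqrt (A * t) := by
    rw [hM, mul_assoc]
    apply mul_le_mul_of_nonneg_right (le_abs_self x) (by positivity)
  have h7 : K * t = κ * t + e * t := by rw [he]; ring
  linarith

/-- the integers whose Collatz orbit stays above `y` -/
theorem col_num {c : ℝ} (hc0 : 0 < c) (hc : c ≤ 1 - beta + 48 / 1000000000) : ∃ A : ℝ, 0 < A ∧
    ∀ X y : ℝ, 1 ≤ X → 1 ≤ y →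
      ({n : ℕ | 1 ≤ n ∧ (n : ℝ) ≤ X ∧ ∀ k : ℕ, y < (Cz^[k] n : ℕ)}.ncard : ℝ) ≤ A * X / y ^ c := by
  obtain ⟨A, hA, h⟩ := Pool.Agent.TH930.HW.three_num odd_one hc0 hc
  refine ⟨A, hA, fun X y hX hy => ?_⟩
  refine le_trans ?_ (h X y hX hy)
  have hfin : {x : ℤ | |(x : ℝ)| ≤ X ∧ ∀ n : ℕ, y < |(((Td 1)^[n] x : ℤ) : ℝ)|}.Finite := by
    apply (Set.finite_Icc (-⌈X⌉) ⌈X⌉).subset
    rintro x ⟨hx, -⟩
    have h1 := abs_le.1 hx
    have h2 := Int.le_ceil X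
    rw [Set.mem_Icc]
    constructor
    · have : (-(⌈X⌉ : ℤ) : ℝ) ≤ x := by linarith
      exact_mod_cast this
    · have : (x : ℝ) ≤ (⌈X⌉ : ℤ) := by linarith
      exact_mod_cast this
  have hsub : ((fun n : ℕ => (n : ℤ)) '' {n : ℕ | 1 ≤ n ∧ (n : ℝ) ≤ X ∧ ∀ k : ℕ, y < (Cz^[k] n : ℕ)}) ⊆
      {x : ℤ | |(x : ℝ)| ≤ X ∧ ∀ n : ℕ, y < |(((Td 1)^[n] x : ℤ) : ℝ)|} := by
    rintro _ ⟨n, ⟨hn1, hnX, hn⟩, rfl⟩
    refine ⟨?_, fun k => ?_⟩
    · simpa using hnX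
    · obtain ⟨o, ho⟩ := Pool.Agent.H828R3.GP.iter_Td k n
      simp only
      rw [ho]
      have := hn o
      rw [Int.cast_natCast, abs_of_nonneg (Nat.cast_nonneg _)]
      exact this
  have h2 := Set.ncard_le_ncard hsub hfin
  rw [Set.ncard_image_of_injective _ Nat.cast_injective] at h2
  exact_mod_cast h2

/-- THE SAVING FROM A VERIFIED RANGE.  The integers with `l(n) > n` have a natural density `δ < 1`; it is
`0` exactly when every positive integer reaches `1`; for every `K > 3 / log (4/3)` it is also the density of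
the integers with `l(n) > K log n`.  There is `A` such that for every `y ≥ 1` for which all positive integers
`m ≤ y` reach `1` we have `δ ≤ A / y^(1 - H + 4.8·10^(-8))`, and for every `X ≥ 1` at most
`A X / y^(1 - H + 4.8·10^(-8))` of the `n ≤ X` do not reach `1`, where `H = 0.94995...` is the binary entropy
of `log_3 2`. -/
theorem result : ∃ δ : ℝ, 0 ≤ δ ∧ δ < 1 ∧ HasDensity (fun n => ¬ StopsBy n n) δ ∧
      (δ = 0 ↔ ∀ n : ℕ, 1 ≤ n → ∃ k, C^[k] n = 1) ∧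
      (∀ K : ℝ, 3 / Real.log (4 / 3) < K → HasDensity (fun n => ¬ StopsBy (K * Real.log n) n) δ) ∧
      ∃ A : ℝ, 0 < A ∧ ∀ y : ℝ, 1 ≤ y → (∀ m : ℕ, 1 ≤ m → (m : ℝ) ≤ y → ∃ k, C^[k] m = 1) →
          δ ≤ A / y ^ (1 - H + 48 / 1000000000) ∧ ∀ X : ℝ, 1 ≤ X →
          ({n : ℕ | 1 ≤ n ∧ (n : ℝ) ≤ X ∧ ¬ ∃ k, C^[k] n = 1}.ncard : ℝ) ≤
            A * X / y ^ (1 - H + 48 / 1000000000) := by
  obtain ⟨δ, hδ0, hδ1, hiff, hB, hlaw⟩ := Pool.Agent.H499R2.LT.law_oneC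
  have hB' : HasDensity (fun n => ∃ k, C^[k] n = 1) δ := hB
  have key : ∀ K : ℝ, 3 / Real.log (4 / 3) < K → ∀ g : ℕ → ℝ, (∀ᶠ n : ℕ in atTop, K * Real.log n ≤ g n) →
      HasDensity (fun n => StopsBy (g n) n) δ := by
    intro K hK g hg
    apply dens_of (Q := fun _ => True) hB' (fun n ⟨k, _, hk⟩ => ⟨k, hk⟩)
    intro ε hε
    have hPhi := ProbabilityTheory.tendsto_cdf_atTop (ProbabilityTheory.gaussianReal 0 1)
    have h1 : Tendsto (fun x => δ * ProbabilityTheory.cdf (ProbabilityTheory.gaussianReal 0 1) x) atTop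
        (𝓝 (δ * 1)) := hPhi.const_mul δ
    rw [mul_one] at h1
    obtain ⟨x, hx⟩ := (h1.eventually (lt_mem_nhds (by linarith : δ - ε < δ))).exists
    have h2 := hlaw 1 0 0 le_rfl x
    refine ⟨_, _, h2, ?_, ?_⟩
    · push_cast
      rw [one_pow, div_one]
      exact hx
    · filter_upwards [bound_le hK x, hg] with n h3 h4
      rintro ⟨k, hk, ⟨hk1, _⟩, _⟩
      exact ⟨k, hk.trans (h3.trans h4), hk1⟩
  refine ⟨1 - δ, by linarith, by linarith, dens_compl ?_, ?_, fun K hK => dens_compl ?_, ?_⟩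
  · apply key (3 / Real.log (4 / 3) + 1) (by linarith) (fun n => (n : ℝ))
    have h1 := (Real.isLittleO_log_id_atTop.bound
      (c := 1 / (3 / Real.log (4 / 3) + 1)) (by
        have hL : 0 < Real.log (4 / 3) := Real.log_pos (by norm_num)
        positivity))
    have h2 := tendsto_natCast_atTop_atTop (R := ℝ) |>.eventually h1
    filter_upwards [h2, eventually_ge_atTop 1] with n h3 h4
    have hL : 0 < Real.log (4 / 3) := Real.log_pos (by norm_num)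
    have hn : (0 : ℝ) < n := by exact_mod_cast h4
    rw [Real.norm_eq_abs, Real.norm_eq_abs, id, abs_of_pos hn, div_mul_eq_mul_div, one_mul,
      le_div_iff₀ (by positivity)] at h3
    have h5 := le_abs_self (Real.log (n : ℝ))
    nlinarith [mul_le_mul_of_nonneg_right h5 (by positivity : 0 ≤ 3 / Real.log (4 / 3) + 1)]
  · constructor
    · intro h
      exact hiff.1 (by linarith)
    · intro h
      have := hiff.2 h
      linarith
  · exact key K hK (fun n => K * Real.log n) (Eventually.of_forall fun n => le_refl _)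
  · have hc0 : 0 < 1 - H + 48 / 1000000000 := by
      have : H < 0.951 := beta_lt
      linarith
    obtain ⟨A, hA, h⟩ := col_num hc0 (c := 1 - H + 48 / 1000000000) (le_refl _)
    have hpos : ∀ k n : ℕ, 1 ≤ n → 1 ≤ C^[k] n := by
      intro k
      induction k with
      | zero => intro n hn; simpa using hn
      | succ k ih =>
        intro n hn
        rw [Function.iterate_succ_apply]
        apply ih
        unfold C
        split_ifs <;> omega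
    have hcount : ∀ y : ℝ, 1 ≤ y → (∀ m : ℕ, 1 ≤ m → (m : ℝ) ≤ y → ∃ k, C^[k] m = 1) →
        ∀ X : ℝ, 1 ≤ X → ({n : ℕ | 1 ≤ n ∧ (n : ℝ) ≤ X ∧ ¬ ∃ k, C^[k] n = 1}.ncard : ℝ) ≤
          A * X / y ^ (1 - H + 48 / 1000000000) := by
      intro y hy hver X hX
      have h2 := h X y hX hy
      have hsub : {n : ℕ | 1 ≤ n ∧ (n : ℝ) ≤ X ∧ ¬ ∃ k, C^[k] n = 1} ⊆
          {n : ℕ | 1 ≤ n ∧ (n : ℝ) ≤ X ∧ ∀ k : ℕ, y < ((Pool.Agent.H499R2.ND.Cz^[k] n : ℕ) : ℝ)} := by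
        rintro n ⟨h3, h4, h5⟩
        refine ⟨h3, h4, fun k => ?_⟩
        by_contra hcon
        push Not at hcon
        have hcon' : ((C^[k] n : ℕ) : ℝ) ≤ y := hcon
        obtain ⟨j, hj⟩ := hver (C^[k] n) (hpos k n h3) hcon'
        rw [← Function.iterate_add_apply] at hj
        exact h5 ⟨_, hj⟩
      have hfin : {n : ℕ | 1 ≤ n ∧ (n : ℝ) ≤ X ∧
          ∀ k : ℕ, y < ((Pool.Agent.H499R2.ND.Cz^[k] n : ℕ) : ℝ)}.Finite := by
        apply (Set.finite_Iic ⌊X⌋₊).subset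
        rintro n ⟨-, h4, -⟩
        exact Nat.le_floor h4
      have h3 : ({n : ℕ | 1 ≤ n ∧ (n : ℝ) ≤ X ∧ ¬ ∃ k, C^[k] n = 1}.ncard : ℝ) ≤
          ({n : ℕ | 1 ≤ n ∧ (n : ℝ) ≤ X ∧
            ∀ k : ℕ, y < ((Pool.Agent.H499R2.ND.Cz^[k] n : ℕ) : ℝ)}.ncard : ℝ) := by
        exact_mod_cast Set.ncard_le_ncard hsub hfin
      exact h3.trans h2
    refine ⟨A, hA, fun y hy hver => ⟨?_, hcount y hy hver⟩⟩
    have h1 := dens_compl hB'
    unfold HasDensity at h1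
    apply le_of_tendsto h1
    filter_upwards [eventually_ge_atTop 1] with N hN
    have hNR : (0 : ℝ) < N := by exact_mod_cast hN
    rw [div_le_iff₀ hNR]
    have h2 := hcount y hy hver N (by exact_mod_cast hN)
    have e1 : {n : ℕ | 1 ≤ n ∧ n ≤ N ∧ ¬ ∃ k, C^[k] n = 1} =
        {n : ℕ | 1 ≤ n ∧ (n : ℝ) ≤ N ∧ ¬ ∃ k, C^[k] n = 1} := by
      ext n
      simp only [Set.mem_setOf_eq, Nat.cast_le]
    rw [e1]
    refine h2.trans (le_of_eq ?_)
    ring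

end Pool.Agent.Results.MP_e43fce_nt.VerifiedRange
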